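import Mathlib

set_option autoImplicit false

namespace Pool.Agent.Results.MP_935ebb_an.Counterexample

open Filter Topology

/-- `f` belongs to (real) `ℓ^∞(G)`. -/
def Bounded {G : Type} (f : G → ℝ) : Prop := ∃ C : ℝ, ∀ x, |f x| ≤ C

/-- `m` is a mean on `ℓ^∞(G)`: linear, positive and normalised (its values at unbounded functions
are irrelevant). -/
def IsMean {G : Type} (m : (G → ℝ) → ℝ) : Prop :=
  (∀ f g, Bounded f → Bounded g → m (fun x => f x + g x) = m f + m g) ∧
  (∀ (c : ℝ) f, Bounded f → m (fun x => c * f x) = c * m f) ∧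
  (∀ f, Bounded f → (∀ x, 0 ≤ f x) → 0 ≤ m f) ∧
  m (fun _ => 1) = 1

/-- Amenability of a discrete group: a left-invariant mean on `ℓ^∞(G)`. -/
def IsAmenable (G : Type) [Group G] : Prop :=
  ∃ m : (G → ℝ) → ℝ, IsMean m ∧ ∀ (g : G) (f : G → ℝ), Bounded f → m (fun x => f (g⁻¹ * x)) = m f

/-- The Banach space `ℓ^1(G)` of complex functions. -/
def L1 (G : Type) : Type := lp (fun _ : G => ℂ) 1

noncomputable instance instNACG (G : Type) : NormedAddCommGroup (L1 G) :=
  @lp.normedAddCommGroup G (fun _ => ℂ) 1 _ _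

noncomputable instance instNS (G : Type) : NormedSpace ℂ (L1 G) :=
  @lp.instNormedSpace ℂ G (fun _ => ℂ) 1 _ _ _ _

/-- the function underlying an element of `ℓ^1(G)` -/
abbrev L1.fn {G : Type} (f : L1 G) : G → ℂ := Subtype.val (p := fun x => x ∈ lp (fun _ : G => ℂ) 1) f

instance (G : Type) : CoeFun (L1 G) (fun _ => G → ℂ) := ⟨L1.fn⟩

theorem summable_norm {G : Type} (f : L1 G) : Summable (fun x => ‖f x‖) := by
  have := (lp.memℓp (f : lp (fun _ : G => ℂ) 1)).summable (by simp)
  simpa using this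

theorem memL1 {G : Type} {f : G → ℂ} (h : Summable (fun x => ‖f x‖)) : Memℓp f 1 := by
  rw [memℓp_gen_iff (by simp)]
  simpa using h

theorem summable_double {G : Type} (f g : L1 G) :
    Summable (fun p : G × G => ‖f p.1 * g p.2‖) := (summable_norm f).mul_norm (summable_norm g)

/-- the equivalence `(x, y) ↦ (y, y⁻¹ x)` -/
def shear (G : Type) [Group G] : G × G ≃ G × G where
  toFun p := (p.2, p.2⁻¹ * p.1)
  invFun p := (p.1 * p.2, p.1)
  left_inv p := by simp
  right_inv p := by simp

theorem summable_shear {G : Type} [Group G] (f g : L1 G) :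
    Summable (fun p : G × G => ‖f p.2 * g (p.2⁻¹ * p.1)‖) :=
  (shear G).summable_iff.mpr (summable_double f g)

theorem conv_mem {G : Type} [Group G] (f g : L1 G) :
    Memℓp (fun x : G => ∑' y : G, f y * g (y⁻¹ * x)) 1 := by
  apply memL1
  have h1 := summable_shear f g
  refine Summable.of_nonneg_of_le (fun x => norm_nonneg _) (fun x => ?_) h1.prod
  exact norm_tsum_le_tsum_norm (h1.prod_factor x)

/-- The convolution product of `ℓ^1(G)`: `(f * g)(x) = ∑_y f(y) g(y⁻¹ x)`. -/
noncomputable def conv {G : Type} [Group G] (f g : L1 G) : L1 G :=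
  ⟨fun x : G => ∑' y : G, f y * g (y⁻¹ * x), conv_mem f g⟩

/-- A closed two-sided ideal of `ℓ^1(G)`. -/
def IsClosedIdeal {G : Type} [Group G] (I : Submodule ℂ (L1 G)) : Prop :=
  IsClosed (I : Set (L1 G)) ∧ ∀ f g : L1 G, g ∈ I → conv f g ∈ I ∧ conv g f ∈ I

/-- `ℓ^1(H)` as the subspace of functions supported on `H`. -/
def L1sub {G : Type} [Group G] (H : Subgroup G) : Submodule ℂ (L1 G) where
  carrier := {f | ∀ x, x ∉ H → f x = 0}
  zero_mem' := by intro x _; rfl
  add_mem' := by
    intro f g hf hg x hx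
    show f x + g x = 0
    rw [hf x hx, hg x hx, add_zero]
  smul_mem' := by
    intro c f hf x hx
    show c * f x = 0
    rw [hf x hx, mul_zero]

/-- The subspace `A` of `M` has finite codimension. -/
def FinCodim {M : Type} [AddCommGroup M] [Module ℂ M] (A : Submodule ℂ M) : Prop :=
  FiniteDimensional ℂ (M ⧸ A)

/-- `A ∩ B` has finite codimension in `B`. -/
def FinCodimIn {M : Type} [AddCommGroup M] [Module ℂ M] (A B : Submodule ℂ M) : Prop :=
  FiniteDimensional ℂ (B ⧸ A.comap B.subtype)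

/-! ### Amenability of increasing unions of finite subgroups -/

/-- ultralimit -/
noncomputable def ulim (u : ℕ → ℝ) : ℝ := limUnder (hyperfilter ℕ : Filter ℕ) u

theorem tendsto_ulim {u : ℕ → ℝ} {C : ℝ} (h : ∀ n, |u n| ≤ C) :
    Tendsto u (hyperfilter ℕ : Filter ℕ) (𝓝 (ulim u)) := by
  apply tendsto_nhds_limUnder
  obtain ⟨x, _, hx⟩ := (isCompact_Icc (a := -C) (b := C)).ultrafilter_le_nhds
    (Ultrafilter.map u (hyperfilter ℕ)) (by
      rw [le_principal_iff]
      show u ⁻¹' (Set.Icc (-C) C) ∈ (hyperfilter ℕ : Filter ℕ)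
      apply Filter.univ_mem'
      intro n
      exact abs_le.mp (h n))
  exact ⟨x, hx⟩

theorem amenable_of_union {G : Type} [Group G] (S : ℕ → Subgroup G) (hfin : ∀ n, Finite (S n))
    (hmono : Monotone S) (hS : ∀ g, ∃ n, g ∈ S n) : IsAmenable G := by
  classical
  have : ∀ n, Fintype (S n) := fun n => Fintype.ofFinite _
  obtain ⟨avg, havg⟩ : ∃ avg : (G → ℝ) → ℕ → ℝ,
      ∀ f n, avg f n = (∑ x : S n, f x) / (Fintype.card (S n)) := ⟨_, fun _ _ => rfl⟩
  have hpos : ∀ n, (0 : ℝ) < Fintype.card (S n) := fun n => by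
    exact_mod_cast Fintype.card_pos
  have hbound : ∀ (f : G → ℝ) (C : ℝ), (∀ x, |f x| ≤ C) → ∀ n, |avg f n| ≤ C := by
    intro f C hC n
    rw [havg, abs_div, abs_of_pos (hpos n), div_le_iff₀ (hpos n)]
    calc |∑ x : S n, f x| ≤ ∑ x : S n, |f x| := Finset.abs_sum_le_sum_abs _ _
      _ ≤ ∑ _x : S n, C := Finset.sum_le_sum (fun x _ => hC x)
      _ = C * Fintype.card (S n) := by
        rw [Finset.sum_const, nsmul_eq_mul, Finset.card_univ, mul_comm]
  obtain ⟨m, hm⟩ : ∃ m : (G → ℝ) → ℝ, ∀ f, m f = ulim (avg f) := ⟨_, fun _ => rfl⟩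
  have ht : ∀ f : G → ℝ, Bounded f → Tendsto (avg f) (hyperfilter ℕ : Filter ℕ) (𝓝 (m f)) := by
    rintro f ⟨C, hC⟩
    rw [hm]
    exact tendsto_ulim (hbound f C hC)
  refine ⟨m, ⟨?_, ?_, ?_, ?_⟩, ?_⟩
  · intro f g hf hg
    have hfg : Bounded (fun x => f x + g x) := by
      obtain ⟨C, hC⟩ := hf
      obtain ⟨D, hD⟩ := hg
      exact ⟨C + D, fun x => (abs_add_le _ _).trans (add_le_add (hC x) (hD x))⟩
    have h1 : avg (fun x => f x + g x) = fun n => avg f n + avg g n := by
      funext n
      simp only [havg]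
      rw [← add_div, ← Finset.sum_add_distrib]
    have h2 := (ht f hf).add (ht g hg)
    rw [← h1] at h2
    exact tendsto_nhds_unique (ht _ hfg) h2
  · intro c f hf
    have hcf : Bounded (fun x => c * f x) := by
      obtain ⟨C, hC⟩ := hf
      exact ⟨|c| * C, fun x => by
        rw [abs_mul]
        exact mul_le_mul_of_nonneg_left (hC x) (abs_nonneg c)⟩
    have h1 : avg (fun x => c * f x) = fun n => c * avg f n := by
      funext n
      simp only [havg]
      rw [← mul_div_assoc, Finset.mul_sum]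
    have h2 := (ht f hf).const_mul c
    rw [← h1] at h2
    exact tendsto_nhds_unique (ht _ hcf) h2
  · intro f hb hf
    refine ge_of_tendsto' (ht f hb) (fun n => ?_)
    rw [havg]
    exact div_nonneg (Finset.sum_nonneg (fun x _ => hf x)) (hpos n).le
  · have h1 : avg (fun _ => 1) = fun _ => 1 := by
      funext n
      rw [havg, Finset.sum_const, nsmul_eq_mul, Finset.card_univ, mul_one, div_self (hpos n).ne']
    have h2 := ht (fun _ => 1) ⟨1, fun x => by simp⟩
    rw [h1] at h2
    exact tendsto_nhds_unique h2 tendsto_const_nhds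
  · intro g f hf
    obtain ⟨k, hk⟩ := hS g
    have hb : Bounded (fun x => f (g⁻¹ * x)) := by
      obtain ⟨C, hC⟩ := hf
      exact ⟨C, fun x => hC _⟩
    refine tendsto_nhds_unique (ht (fun x => f (g⁻¹ * x)) hb) ((ht f hf).congr' ?_)
    have h1 : ∀ᶠ n in (hyperfilter ℕ : Filter ℕ), k ≤ n :=
      (Nat.hyperfilter_le_atTop (eventually_ge_atTop k))
    filter_upwards [h1] with n hn
    rw [havg, havg]
    congr 1
    have hg : g⁻¹ ∈ S n := (S n).inv_mem (hmono hn hk)
    have h2 := Equiv.sum_comp (Equiv.mulLeft (⟨g⁻¹, hg⟩ : S n)) (fun x : S n => f x)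
    rw [← h2]
    apply Finset.sum_congr rfl
    intro x _
    rfl

/-! ### The ideal attached to a homomorphism -/

section ideal
variable {G V : Type} [Group G] [Group V] (π : G →* V)

theorem summable_mul_bdd (f : L1 G) {h : V → ℂ} {C : ℝ} (hC : ∀ v, ‖h v‖ ≤ C) :
    Summable (fun x => f x * h (π x)) := by
  apply Summable.of_norm
  refine Summable.of_nonneg_of_le (fun _ => norm_nonneg _) (fun x => ?_) ((summable_norm f).mul_right C)
  rw [norm_mul]
  exact mul_le_mul_of_nonneg_left (hC _) (norm_nonneg _)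

/-- the kernel of `ℓ^1(G) → ℓ^1(V)` -/
def kerI : Submodule ℂ (L1 G) where
  carrier := {f | ∀ h : V → ℂ, (∃ C : ℝ, ∀ v, ‖h v‖ ≤ C) → ∑' x, f x * h (π x) = 0}
  zero_mem' := by
    intro h _
    have : ∀ x, (0 : L1 G) x * h (π x) = 0 := fun x => by
      show (0 : ℂ) * _ = 0
      rw [zero_mul]
    simp only [this, tsum_zero]
  add_mem' := by
    rintro f g hf hg h ⟨C, hC⟩
    have h1 : ∀ x, (f + g) x * h (π x) = f x * h (π x) + g x * h (π x) := fun x => by
      show (f x + g x) * _ = _
      rw [add_mul]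
    simp only [h1]
    rw [(summable_mul_bdd π f hC).tsum_add (summable_mul_bdd π g hC), hf h ⟨C, hC⟩, hg h ⟨C, hC⟩,
      add_zero]
  smul_mem' := by
    rintro c f hf h ⟨C, hC⟩
    have h1 : ∀ x, (c • f) x * h (π x) = c * (f x * h (π x)) := fun x => by
      show (c * f x) * _ = _
      rw [mul_assoc]
    simp only [h1]
    rw [tsum_mul_left, hf h ⟨C, hC⟩, mul_zero]

theorem mem_kerI {f : L1 G} : f ∈ kerI π ↔
    ∀ h : V → ℂ, (∃ C : ℝ, ∀ v, ‖h v‖ ≤ C) → ∑' x, f x * h (π x) = 0 := Iff.rfl

omit [Group G] in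
theorem tsum_norm_eq (f : L1 G) : ∑' x, ‖f x‖ = ‖f‖ := by
  have h := lp.norm_eq_tsum_rpow (E := fun _ : G => ℂ) (p := 1) (by simp) f
  calc ∑' x, ‖f x‖ = (∑' i, ‖f i‖ ^ ENNReal.toReal 1) ^ (1 / ENNReal.toReal 1) := by simp
    _ = ‖f‖ := h.symm

/-- integration against a bounded function, as a continuous linear map -/
noncomputable def integ (h : V → ℂ) (C : ℝ) (hC : ∀ v, ‖h v‖ ≤ C) : L1 G →L[ℂ] ℂ :=
  LinearMap.mkContinuous
    { toFun := fun f => ∑' x, f x * h (π x)
      map_add' := by
        intro f g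
        have h1 : ∀ x, (f + g) x * h (π x) = f x * h (π x) + g x * h (π x) := fun x => by
          show (f x + g x) * _ = _
          rw [add_mul]
        simp only [h1]
        rw [(summable_mul_bdd π f hC).tsum_add (summable_mul_bdd π g hC)]
      map_smul' := by
        intro c f
        have h1 : ∀ x, (c • f) x * h (π x) = c * (f x * h (π x)) := fun x => by
          show (c * f x) * _ = _
          rw [mul_assoc]
        simp only [h1]
        rw [tsum_mul_left]
        rfl } C (by
    intro f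
    show ‖∑' x, f x * h (π x)‖ ≤ C * ‖f‖
    rw [← tsum_norm_eq, ← tsum_mul_left]
    have h1 : Summable (fun x => ‖f x * h (π x)‖) := by
      refine Summable.of_nonneg_of_le (fun _ => norm_nonneg _) (fun x => ?_) ((summable_norm f).mul_right C)
      rw [norm_mul]
      exact mul_le_mul_of_nonneg_left (hC _) (norm_nonneg _)
    refine (norm_tsum_le_tsum_norm h1).trans ?_
    refine h1.tsum_le_tsum (fun x => ?_) ((summable_norm f).mul_left C)
    rw [norm_mul, mul_comm]
    exact mul_le_mul_of_nonneg_right (hC _) (norm_nonneg _))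

theorem integ_apply (h : V → ℂ) (C : ℝ) (hC : ∀ v, ‖h v‖ ≤ C) (f : L1 G) :
    integ π h C hC f = ∑' x, f x * h (π x) := rfl

theorem closed_kerI : IsClosed (kerI π : Set (L1 G)) := by
  have h1 : (kerI π : Set (L1 G)) = ⋂ (h : V → ℂ) (C : ℝ) (hC : ∀ v, ‖h v‖ ≤ C),
      {f | integ π h C hC f = 0} := by
    ext f
    simp only [Set.mem_iInter, SetLike.mem_coe, mem_kerI, Set.mem_ofPred_eq, integ_apply]
    constructor
    · intro hf h C hC; exact hf h ⟨C, hC⟩
    · rintro hf h ⟨C, hC⟩; exact hf h C hC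
  rw [h1]
  refine isClosed_iInter fun h => isClosed_iInter fun C => isClosed_iInter fun hC => ?_
  exact isClosed_eq (integ π h C hC).continuous continuous_const

theorem conv_integral (f g : L1 G) {h : V → ℂ} {C : ℝ} (hC : ∀ v, ‖h v‖ ≤ C) :
    ∑' x, (conv f g) x * h (π x) = ∑' p : G × G, f p.1 * g p.2 * h (π (p.1 * p.2)) ∧
      Summable (fun p : G × G => f p.1 * g p.2 * h (π (p.1 * p.2))) := by
  have hs : Summable (fun p : G × G => f p.1 * g p.2 * h (π (p.1 * p.2))) := by
    apply Summable.of_norm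
    refine Summable.of_nonneg_of_le (fun _ => norm_nonneg _) (fun p => ?_)
      ((summable_double f g).mul_right C)
    rw [norm_mul]
    exact mul_le_mul_of_nonneg_left (hC _) (norm_nonneg _)
  refine ⟨?_, hs⟩
  have hs2 : Summable (fun p : G × G => f p.2 * g (p.2⁻¹ * p.1) * h (π p.1)) := by
    have := (shear G).summable_iff.mpr hs
    refine this.congr (fun p => ?_)
    simp [shear]
  rw [← (shear G).tsum_eq]
  have h2 : ∀ p : G × G, f ((shear G) p).1 * g ((shear G) p).2 * h (π (((shear G) p).1 * ((shear G) p).2))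
      = f p.2 * g (p.2⁻¹ * p.1) * h (π p.1) := by
    intro p; simp [shear]
  simp only [h2]
  rw [hs2.tsum_prod]
  congr 1
  funext x
  show (∑' y : G, f y * g (y⁻¹ * x)) * h (π x) = _
  rw [← tsum_mul_right]

theorem ideal_kerI : IsClosedIdeal (kerI π) := by
  refine ⟨closed_kerI π, fun f g hg => ⟨?_, ?_⟩⟩
  · rintro h ⟨C, hC⟩
    obtain ⟨h1, h2⟩ := conv_integral π f g hC
    rw [h1, h2.tsum_prod]
    have h3 : ∀ y : G, ∑' z : G, f y * g z * h (π (y * z)) = 0 := by
      intro y
      have h4 := hg (fun v => h (π y * v)) ⟨C, fun v => hC _⟩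
      have h5 : ∀ z, f y * g z * h (π (y * z)) = f y * (g z * h (π y * π z)) := fun z => by
        rw [map_mul, mul_assoc]
      simp only [h5]
      rw [tsum_mul_left, h4, mul_zero]
    simp only [h3, tsum_zero]
  · rintro h ⟨C, hC⟩
    obtain ⟨h1, h2⟩ := conv_integral π g f hC
    rw [h1, ← (Equiv.prodComm G G).tsum_eq]
    have h2' := (Equiv.prodComm G G).summable_iff.mpr h2
    have h6 : Summable (fun p : G × G => g p.2 * f p.1 * h (π (p.2 * p.1))) := h2'
    show ∑' p : G × G, g p.2 * f p.1 * h (π (p.2 * p.1)) = 0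
    rw [h6.tsum_prod]
    have h3 : ∀ z : G, ∑' y : G, g y * f z * h (π (y * z)) = 0 := by
      intro z
      have h4 := hg (fun v => h (v * π z)) ⟨C, fun v => hC _⟩
      have h5 : ∀ y, g y * f z * h (π (y * z)) = f z * (g y * h (π y * π z)) := fun y => by
        rw [map_mul]; ring
      simp only [h5]
      rw [tsum_mul_left, h4, mul_zero]
    simp only [h3, tsum_zero]

end ideal

/-! ### The group -/

/-- the tensor `a ⊗ b` -/
noncomputable def ten (a b : ℕ →₀ ZMod 2) : (ℕ × ℕ) →₀ ZMod 2 :=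
  Finsupp.onFinset (a.support ×ˢ b.support) (fun p => a p.1 * b p.2) (by
    intro p hp
    rw [Finset.mem_product, Finsupp.mem_support_iff, Finsupp.mem_support_iff]
    exact ⟨left_ne_zero_of_mul hp, right_ne_zero_of_mul hp⟩)

theorem ten_apply (a b : ℕ →₀ ZMod 2) (p : ℕ × ℕ) : ten a b p = a p.1 * b p.2 := rfl

/-- a Heisenberg-like group, nilpotent of class 2 -/
@[ext] structure Hs where
  a : ℕ →₀ ZMod 2
  b : (ℕ × ℕ) →₀ ZMod 2

namespace Hs

noncomputable instance : Mul Hs := ⟨fun x y => ⟨x.a + y.a, x.b + y.b + ten x.a y.a⟩⟩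
noncomputable instance : One Hs := ⟨⟨0, 0⟩⟩
noncomputable instance : Inv Hs := ⟨fun x => ⟨x.a, x.b + ten x.a x.a⟩⟩

theorem mul_a (x y : Hs) : (x * y).a = x.a + y.a := rfl
theorem mul_b (x y : Hs) : (x * y).b = x.b + y.b + ten x.a y.a := rfl
theorem one_a : (1 : Hs).a = 0 := rfl
theorem one_b : (1 : Hs).b = 0 := rfl
theorem inv_a (x : Hs) : (x⁻¹).a = x.a := rfl
theorem inv_b (x : Hs) : (x⁻¹).b = x.b + ten x.a x.a := rfl

noncomputable instance : Group Hs := Group.ofLeftAxioms
  (by
    intro x y z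
    ext i
    · simp only [mul_a, Finsupp.add_apply]; ring
    · simp only [mul_b, mul_a, Finsupp.add_apply, ten_apply]; ring)
  (by
    intro x
    ext i
    · simp only [mul_a, one_a, Finsupp.add_apply, Finsupp.coe_zero, Pi.zero_apply]; ring
    · simp only [mul_b, one_a, one_b, Finsupp.add_apply, ten_apply, Finsupp.coe_zero, Pi.zero_apply]; ring)
  (by
    intro x
    ext i
    · simp only [mul_a, inv_a, one_a, Finsupp.add_apply, Finsupp.coe_zero, Pi.zero_apply]
      exact CharTwo.add_self_eq_zero _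
    · simp only [mul_b, inv_a, inv_b, one_b, Finsupp.add_apply, ten_apply, Finsupp.coe_zero, Pi.zero_apply]
      have h1 := CharTwo.add_self_eq_zero (x.b i)
      have h2 := CharTwo.add_self_eq_zero (x.a i.1 * x.a i.2)
      linear_combination h1 + h2)

/-- the projection onto the elementary abelian quotient -/
noncomputable def proj : Hs →* Multiplicative (ℕ →₀ ZMod 2) where
  toFun x := Multiplicative.ofAdd x.a
  map_one' := rfl
  map_mul' _ _ := rfl

/-- the finite subgroups -/
noncomputable def sub (n : ℕ) : Subgroup Hs where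
  carrier := {x | (∀ i, n ≤ i → x.a i = 0) ∧ ∀ p : ℕ × ℕ, (n ≤ p.1 ∨ n ≤ p.2) → x.b p = 0}
  one_mem' := ⟨fun _ _ => rfl, fun _ _ => rfl⟩
  mul_mem' := by
    rintro x y ⟨h1, h2⟩ ⟨h3, h4⟩
    refine ⟨fun i hi => ?_, fun p hp => ?_⟩
    · rw [mul_a, Finsupp.add_apply, h1 i hi, h3 i hi, add_zero]
    · rw [mul_b, Finsupp.add_apply, Finsupp.add_apply, h2 p hp, h4 p hp, ten_apply]
      rcases hp with hp | hp
      · rw [h1 _ hp]; ring
      · rw [h3 _ hp]; ring
  inv_mem' := by
    rintro x ⟨h1, h2⟩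
    refine ⟨fun i hi => ?_, fun p hp => ?_⟩
    · rw [inv_a, h1 i hi]
    · rw [inv_b, Finsupp.add_apply, h2 p hp, ten_apply]
      rcases hp with hp | hp
      · rw [h1 _ hp]; ring
      · rw [h1 _ hp]; ring

theorem sub_finite (n : ℕ) : Finite (sub n) := by
  let F : sub n → (Fin n → ZMod 2) × (Fin n × Fin n → ZMod 2) := fun x =>
    (fun i => x.1.a i, fun p => x.1.b ((p.1 : ℕ), (p.2 : ℕ)))
  apply Finite.of_injective F
  rintro ⟨x, hx1, hx2⟩ ⟨y, hy1, hy2⟩ h
  have h1 := congrArg Prod.fst h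
  have h2 := congrArg Prod.snd h
  apply Subtype.ext
  ext i
  · by_cases hi : n ≤ i
    · show x.a i = y.a i
      rw [hx1 i hi, hy1 i hi]
    · exact congrFun h1 ⟨i, by omega⟩
  · by_cases hi : n ≤ i.1 ∨ n ≤ i.2
    · show x.b i = y.b i
      rw [hx2 i hi, hy2 i hi]
    · push Not at hi
      exact congrFun h2 (⟨i.1, hi.1⟩, ⟨i.2, hi.2⟩)

theorem sub_mono : Monotone sub := by
  rintro m n hmn x ⟨h1, h2⟩
  exact ⟨fun i hi => h1 i (hmn.trans hi), fun p hp => h2 p (hp.imp (hmn.trans) (hmn.trans))⟩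

theorem sub_exhaust (x : Hs) : ∃ n, x ∈ sub n := by
  refine ⟨x.a.support.sup id + 1 + x.b.support.sup (fun p => p.1 + p.2), fun i hi => ?_, fun p hp => ?_⟩
  · by_contra h
    have h1 : i ≤ x.a.support.sup id := Finset.le_sup (f := id) (Finsupp.mem_support_iff.mpr h)
    omega
  · by_contra h
    have h1 : p.1 + p.2 ≤ x.b.support.sup (fun p => p.1 + p.2) :=
      Finset.le_sup (f := fun p : ℕ × ℕ => p.1 + p.2) (Finsupp.mem_support_iff.mpr h)
    omega

theorem amenable : IsAmenable Hs := amenable_of_union sub sub_finite sub_mono sub_exhaust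

/-- commuting elements with nontrivial image have dependent images -/
theorem comm_a {x y : Hs} (h : x * y = y * x) (hx : x.a ≠ 0) : y.a = 0 ∨ y.a = x.a := by
  have h1 := congrArg Hs.b h
  rw [mul_b, mul_b] at h1
  have h2 : ∀ i j, x.a i * y.a j = y.a i * x.a j := by
    intro i j
    have h3 := DFunLike.congr_fun h1 (i, j)
    simp only [Finsupp.add_apply, ten_apply] at h3
    linear_combination h3
  obtain ⟨i, hi⟩ : ∃ i, x.a i ≠ 0 := by
    by_contra hc
    push Not at hc
    exact hx (Finsupp.ext hc)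
  have h5 : ∀ z : ZMod 2, z = 0 ∨ z = 1 := by decide
  have hi1 : x.a i = 1 := (h5 _).resolve_left hi
  rcases h5 (y.a i) with hy | hy
  · left
    ext j
    have := h2 i j
    rw [hi1, hy] at this
    simpa using this
  · right
    ext j
    have := h2 i j
    rw [hi1, hy] at this
    simpa using this

theorem image_finite (H : Subgroup Hs) (hH : ∀ x ∈ H, ∀ y ∈ H, x * y = y * x) :
    ((fun x : Hs => proj x) '' (H : Set Hs)).Finite := by
  by_cases hx : ∃ x ∈ H, x.a ≠ 0
  · obtain ⟨x, hx, hx0⟩ := hx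
    apply Set.Finite.subset (s := {1, proj x}) (by simp)
    rintro _ ⟨y, hy, rfl⟩
    rcases comm_a (hH x hx y hy) hx0 with h | h
    · left; show Multiplicative.ofAdd y.a = 1; rw [h]; rfl
    · right
      show Multiplicative.ofAdd y.a = Multiplicative.ofAdd x.a
      rw [h]
  · push Not at hx
    apply Set.Finite.subset (s := {1}) (by simp)
    rintro _ ⟨y, hy, rfl⟩
    show Multiplicative.ofAdd y.a = 1
    rw [hx y hy]
    rfl

end Hs

/-! ### Codimensions -/

section codim
variable {G V : Type} [Group G] [Group V] (π : G →* V)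

open Classical in
/-- indicator of a point -/
noncomputable def ind (v : V) : V → ℂ := fun w => if w = v then 1 else 0

omit [Group V] in
theorem ind_bdd (v : V) : ∀ w, ‖ind v w‖ ≤ 1 := by
  intro w
  unfold ind
  split_ifs <;> simp

theorem finite_codim (H : Subgroup G) (hfin : ((fun x : G => π x) '' (H : Set G)).Finite) :
    FiniteDimensional ℂ (L1sub H ⧸ (kerI π).comap (L1sub H).subtype) := by
  classical
  let S := hfin.toFinset
  let Φ : L1sub H →ₗ[ℂ] (S → ℂ) :=
    LinearMap.pi (fun v => (integ π (ind v.1) 1 (ind_bdd v.1)).toLinearMap ∘ₗ (L1sub H).subtype)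
  have hker : LinearMap.ker Φ ≤ (kerI π).comap (L1sub H).subtype := by
    rintro ⟨f, hf⟩ hΦ
    rw [LinearMap.mem_ker] at hΦ
    show f ∈ kerI π
    rintro h ⟨C, hC⟩
    have h1 : ∀ x, f x * h (π x) = ∑ v ∈ S, h v * (f x * ind v (π x)) := by
      intro x
      by_cases hx : x ∈ H
      · have hm : π x ∈ S := by
          simp only [S, Set.Finite.mem_toFinset]
          exact ⟨x, hx, rfl⟩
        rw [Finset.sum_eq_single (π x)]
        · unfold ind; rw [if_pos rfl]; ring
        · intro v _ hv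
          unfold ind; rw [if_neg (Ne.symm hv)]; ring
        · intro h; exact absurd hm h
      · rw [hf x hx]; simp
    simp only [h1]
    rw [Summable.tsum_finsetSum (fun v _ => (summable_mul_bdd π f (ind_bdd v)).mul_left _)]
    apply Finset.sum_eq_zero
    intro v hv
    rw [tsum_mul_left]
    have h2 := congrFun hΦ ⟨v, hv⟩
    have h3 : ∑' x, f x * ind v (π x) = 0 := h2
    rw [h3, mul_zero]
  have h1 : FiniteDimensional ℂ (L1sub H ⧸ LinearMap.ker Φ) :=
    Module.Finite.equiv Φ.quotKerEquivRange.symm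
  exact Module.Finite.of_surjective (Submodule.factor hker) (Submodule.factor_surjective hker)

theorem infinite_codim (x : ℕ → G) (hx : Function.Injective (fun n => π (x n))) :
    ¬ FiniteDimensional ℂ (L1 G ⧸ kerI π) := by
  classical
  intro hfd
  let δ : ℕ → L1 G := fun n => lp.single 1 (x n) (1 : ℂ)
  have hδ : ∀ m n, integ π (ind (π (x m))) 1 (ind_bdd _) (δ n) = if m = n then 1 else 0 := by
    intro m n
    rw [integ_apply, tsum_eq_single (x n)]
    · have : (δ n) (x n) = 1 := by
        show (lp.single 1 (x n) (1 : ℂ) : L1 G) (x n) = 1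
        rw [lp.single_apply_self]
      rw [this, one_mul]
      unfold ind
      by_cases h : m = n
      · subst h; simp
      · rw [if_neg h, if_neg]
        intro h'
        exact h (hx h'.symm)
    · intro y hy
      have : (δ n) y = 0 := by
        show (lp.single 1 (x n) (1 : ℂ) : L1 G) y = 0
        rw [lp.single_apply_ne _ _ _ hy]
      rw [this, zero_mul]
  have hle : ∀ m, kerI π ≤ LinearMap.ker (integ π (ind (π (x m))) 1 (ind_bdd _)).toLinearMap := by
    intro m f hf
    exact hf _ ⟨1, ind_bdd _⟩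
  let φ : ∀ m, (L1 G ⧸ kerI π) →ₗ[ℂ] ℂ := fun m => (kerI π).liftQ _ (hle m)
  have hli : LinearIndependent ℂ (fun n => (kerI π).mkQ (δ n)) := by
    rw [linearIndependent_iff']
    intro s g hg m hm
    have h1 := congrArg (φ m) hg
    rw [map_sum, map_zero] at h1
    have h2 : ∀ n, φ m (g n • (kerI π).mkQ (δ n)) = if m = n then g n else 0 := by
      intro n
      rw [map_smul]
      show g n • (integ π (ind (π (x m))) 1 (ind_bdd _) (δ n)) = _
      rw [hδ]
      split_ifs <;> simp
    simp only [h2] at h1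
    rw [Finset.sum_ite_eq, if_pos hm] at h1
    exact h1
  exact not_finite_iff_infinite.mpr (inferInstance : Infinite ℕ) (hli.finite)

end codim

/-- There are an amenable discrete group `G` and a closed two-sided ideal `I` of `ℓ^1(G)` of
infinite codimension such that `I ∩ ℓ^1(H)` has finite codimension in `ℓ^1(H)` for every abelian
subgroup `H` of `G`. -/
theorem result :
    ∃ (G : Type) (_ : Group G) (I : Submodule ℂ (L1 G)),
      IsAmenable G ∧ IsClosedIdeal I ∧
      (∀ H : Subgroup G, (∀ x ∈ H, ∀ y ∈ H, x * y = y * x) → FinCodimIn I (L1sub H)) ∧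
      ¬ FinCodim I := by
  refine ⟨Hs, inferInstance, kerI Hs.proj, Hs.amenable, ideal_kerI _, ?_, ?_⟩
  · intro H hH
    exact finite_codim _ H (Hs.image_finite H hH)
  · apply infinite_codim Hs.proj (fun n => ⟨Finsupp.single n 1, 0⟩)
    intro m n h
    have h1 : Finsupp.single m (1 : ZMod 2) = Finsupp.single n 1 := Multiplicative.ofAdd.injective h
    exact Finsupp.single_left_injective one_ne_zero h1

end Pool.Agent.Results.MP_935ebb_an.Counterexample
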